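import Pool.Agent.W486.VN.Main

/-!
# Smash nilpotence and prime adequate equivalence relations

`C` are the Chow groups with rational coefficients of a class of smooth proper varieties which is
closed under products, `H` is a Weil cohomology theory, and every variety of the class is dominated
by one in `𝒟`. The following are equivalent: Voevodsky's conjecture (homologically trivial classes
are smash-nilpotent) for all varieties of the class; the same for the self-correspondences of degree
zero of the varieties in `𝒟` which generate an ideal with square zero in the ring of
self-correspondences; homological equivalence is the least prime adequate relation.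
-/

open CategoryTheory AlgebraicGeometry

universe u v w

namespace Pool.Agent.Results.MP_bf8edd_ag.PrimeRelations

open Pool.Agent.H914 Pool.Agent.H914.VarClass Pool.Agent.H914.VarClass.Obj Pool.Agent.W492.BB
  Pool.Agent.W486.VN

theorem result {k : Type u} [Field k] {𝒱 : VarClass k} {C : TheoryData.{u, v, 0} 𝒱 ℚ}
    {K : Type w} [Field K] (H : WeilTheoryData.{u, v, w} C K) [IsChow C] [IsWeil H]
    (hS : IsStandard H) (𝒟 : Set 𝒱.Obj) (hD : Dominating C 𝒟) :
    List.TFAE [
      -- Voevodsky's conjecture
      ∀ (X : 𝒱.Obj) (i : ℤ) (x : C.A X), C.Deg i x → H.cl x = 0 → SmashNil C x,
      -- Voevodsky's conjecture for some self-correspondences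
      ∀ X ∈ 𝒟, ∀ Γ : C.A (X.prod X), SqZero C Γ → H.cl Γ = 0 → SmashNil C Γ,
      -- homological equivalence is the least prime adequate relation
      IsLeast {R : Rel C | R.IsPrime} (homRel H)] :=
  tfae hS hD

end Pool.Agent.Results.MP_bf8edd_ag.PrimeRelations
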