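import Pool.Agent.W486.VN.Main

/-!
# Smash nilpotence of numerically trivial cycles and prime adequate equivalence relations

Voevodsky's conjecture and the coincidence of homological and numerical equivalence hold (for all
varieties of a class which is closed under products) if and only if there is exactly one prime
adequate relation.
-/

open CategoryTheory AlgebraicGeometry

universe u v w

namespace Pool.Agent.Results.MP_bf8edd_ag.UniquePrimeRelation

open Pool.Agent.H914 Pool.Agent.H914.VarClass Pool.Agent.H914.VarClass.Obj Pool.Agent.W492.BB
  Pool.Agent.W486.VN

theorem result {k : Type u} [Field k] {𝒱 : VarClass k} {C : TheoryData.{u, v, 0} 𝒱 ℚ}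
    {K : Type w} [Field K] (H : WeilTheoryData.{u, v, w} C K) [IsChow C] [IsWeil H]
    (hS : IsStandard H) :
    List.TFAE [
      -- Voevodsky's conjecture, and homological equivalence is numerical equivalence
      (∀ (X : 𝒱.Obj) (i : ℤ) (x : C.A X), C.Deg i x → H.cl x = 0 → SmashNil C x) ∧
        homRel H = numRel C,
      -- numerically trivial cycles are smash-nilpotent
      ∀ (X : 𝒱.Obj) (i : ℤ) (x : C.A X), x ∈ (numRel C).I X i → SmashNil C x,
      -- there is exactly one prime adequate relation
      ∃! R : Rel C, R.IsPrime] :=
  num_tfae hS

end Pool.Agent.Results.MP_bf8edd_ag.UniquePrimeRelation
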